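import Mathlib

namespace Pool.Agent.Results.MP_c44e76_an.Inverse

open Set Filter Topology Uniformity

/-- `(V,1)`-pseudo-orbits in `D(G)`. -/
def Pseudo1 {X : Type*} (G V : Set (X × X)) (x : ℕ → X) : Prop :=
  ∀ n, (∃ y, (x n, y) ∈ G) ∧ ∀ y, (x n, y) ∈ G → (x (n + 1), y) ∈ V

/-- `(V,2)`-pseudo-orbits in `D(G)`. -/
def Pseudo2 {X : Type*} (G V : Set (X × X)) (x : ℕ → X) : Prop :=
  ∀ n, (∃ y, (x n, y) ∈ G) ∧ ∃ y, (x n, y) ∈ G ∧ (x (n + 1), y) ∈ V

/-- some (legal) point `(U,2)`-shadows `x`: a trajectory of `G` stays `U`-close to `x`. -/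
def Shadowed2 {X : Type*} (G U : Set (X × X)) (x : ℕ → X) : Prop :=
  ∃ y : ℕ → X, (∀ n, (y n, y (n + 1)) ∈ G) ∧ ∀ n, (x n, y n) ∈ U

def Shadow12 {X : Type*} [TopologicalSpace X] (G : Set (X × X)) : Prop :=
  ∀ U ∈ 𝓝ˢ (diagonal X), ∃ V ∈ 𝓝ˢ (diagonal X), ∀ x, Pseudo1 G V x → Shadowed2 G U x

def Shadow22 {X : Type*} [TopologicalSpace X] (G : Set (X × X)) : Prop :=
  ∀ U ∈ 𝓝ˢ (diagonal X), ∃ V ∈ 𝓝ˢ (diagonal X), ∀ x, Pseudo2 G V x → Shadowed2 G U x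

/-- the inverse relation. -/
def inv {X : Type*} (G : Set (X × X)) : Set (X × X) := {p | (p.2, p.1) ∈ G}

lemma main {X : Type*} [UniformSpace X] [CompactSpace X] (G : Set (X × X)) (hG : IsClosed G)
    (hD : diagonal X ⊆ G)
    (h : ∀ U ∈ 𝓤 X, ∃ V ∈ 𝓤 X, ∀ x, Pseudo2 G V x → Shadowed2 G U x) :
    ∀ U ∈ 𝓤 X, ∃ V ∈ 𝓤 X, ∀ x, Pseudo2 (inv G) V x → Shadowed2 (inv G) U x := by
  intro U hU
  obtain ⟨U1, hU1, hc, hsub⟩ := mem_uniformity_isClosed hU
  obtain ⟨W, hW, hWW⟩ := comp_mem_uniformity_sets hU1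
  obtain ⟨V0, hV0, hsh⟩ := h W hW
  refine ⟨(Prod.swap ⁻¹' V0) ∩ W, inter_mem (tendsto_swap_uniformity hV0) hW, fun x hx => ?_⟩
  choose y hy1 hy2 using fun n => (hx n).2
  let y' : ℕ → X := fun n => Nat.casesOn n (x 0) y
  have hG' : ∀ n, (y' (n + 1), x n) ∈ G := fun n => hy1 n
  have hV : ∀ n, (y' n, x n) ∈ V0 ∧ (x n, y' n) ∈ W := by
    intro n
    cases n with
    | zero => exact ⟨refl_mem_uniformity hV0, refl_mem_uniformity hW⟩
    | succ n => exact ⟨(hy2 n).1, (hy2 n).2⟩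
  have hz : ∀ N : ℕ, Shadowed2 G W (fun i => y' (N - i)) := by
    intro N
    apply hsh
    intro i
    refine ⟨⟨_, hD rfl⟩, ?_⟩
    rcases Nat.eq_zero_or_eq_succ_pred (N - i) with h0 | h0
    · have h1 : N - (i + 1) = 0 := by omega
      refine ⟨x 0, ?_, ?_⟩
      · simp only [h0]; exact hD rfl
      · simp only [h1]; exact refl_mem_uniformity hV0
    · obtain ⟨m, hm⟩ : ∃ m, N - i = m + 1 := ⟨_, h0⟩
      have h1 : N - (i + 1) = m := by omega
      refine ⟨x m, ?_, ?_⟩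
      · simp only [hm]; exact hG' m
      · simp only [h1]; exact (hV m).1
  choose z hz1 hz2 using hz
  let φ : Ultrafilter ℕ := hyperfilter ℕ
  have hφ : (φ : Filter ℕ) ≤ atTop := by
    rw [← Nat.cofinite_eq_atTop]; exact hyperfilter_le_cofinite
  have hlim : ∀ n, ∃ a, Tendsto (fun N => z N (N - n)) φ (𝓝 a) := fun n => by
    obtain ⟨a, -, ha⟩ := isCompact_univ.ultrafilter_le_nhds (φ.map fun N => z N (N - n)) (by simp)
    exact ⟨a, ha⟩
  choose w hw using hlim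
  refine ⟨w, fun n => ?_, fun n => hsub ?_⟩
  · show (w (n + 1), w n) ∈ G
    refine hG.mem_of_tendsto ((hw (n + 1)).prodMk_nhds (hw n)) (hφ ?_)
    filter_upwards [eventually_ge_atTop (n + 1)] with N hN
    have := hz1 N (N - (n + 1))
    rwa [show N - (n + 1) + 1 = N - n by omega] at this
  · refine hc.mem_of_tendsto (tendsto_const_nhds.prodMk_nhds (hw n)) (hφ ?_)
    filter_upwards [eventually_ge_atTop n] with N hN
    have := hz2 N (N - n)
    simp only [show N - (N - n) = n by omega] at this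
    exact hWW ⟨_, (hV n).2, this⟩

theorem result {X : Type*} [TopologicalSpace X] [CompactSpace X] [T2Space X]
    (G : Set (X × X)) (hG : IsClosed G) (hD : diagonal X ⊆ G) (h : Shadow22 G) :
    Shadow22 (inv G) ∧ Shadow12 (inv G) := by
  have h2 : Shadow22 (inv G) := by
    letI : UniformSpace X := uniformSpaceOfCompactR1
    exact main G hG hD h
  refine ⟨h2, fun U hU => ?_⟩
  obtain ⟨V, hV, hs⟩ := h2 U hU
  refine ⟨V, hV, fun x hx => hs x fun n => ⟨(hx n).1, ?_⟩⟩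
  obtain ⟨y, hy⟩ := (hx n).1
  exact ⟨y, hy, (hx n).2 y hy⟩

end Pool.Agent.Results.MP_c44e76_an.Inverse
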